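import Pool.Agent.Q189.IB.Stm4

/-!
# The Gamma function at rational numbers differing by an integer
-/

set_option autoImplicit false

namespace Pool.Agent.Q192.IB

open Pool.Agent.Q189.IB

lemma shift_aux (b : ℚ) (hb : 0 < b) (z : ℤ) : (∀ n : ℕ, b + z ≠ -(n : ℚ)) →
    ∃ q : ℚ, q ≠ 0 ∧ Real.Gamma ((b + z : ℚ) : ℝ) = q * Real.Gamma (b : ℝ) := by
  induction z using Int.induction_on with
  | zero =>
    intro _
    exact ⟨1, one_ne_zero, by simp⟩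
  | succ k ih =>
    intro _
    have h0 : (0 : ℚ) < b + ((k : ℤ) : ℚ) := by
      have : (0 : ℚ) ≤ ((k : ℤ) : ℚ) := by positivity
      linarith
    obtain ⟨q, hq, h⟩ := ih (fun n hn => by
      have : (0 : ℚ) ≤ (n : ℚ) := by positivity
      linarith)
    refine ⟨(b + ((k : ℤ) : ℚ)) * q, mul_ne_zero h0.ne' hq, ?_⟩
    have h1 : (((b + ((k : ℤ) + 1 : ℤ) : ℚ)) : ℝ) = ((b + ((k : ℤ) : ℚ) : ℚ) : ℝ) + 1 := by
      push_cast
      ring
    rw [h1, Real.Gamma_add_one (by exact_mod_cast h0.ne'), h, Rat.cast_mul]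
    ring
  | pred k ih =>
    intro hn
    have h0 : b + ((-(k : ℤ) - 1 : ℤ) : ℚ) ≠ 0 := fun h => hn 0 (by simpa using h)
    obtain ⟨q, hq, h⟩ := ih (fun n hn' => hn (n + 1) (by
      push_cast at hn' ⊢
      linarith))
    refine ⟨(b + ((-(k : ℤ) - 1 : ℤ) : ℚ))⁻¹ * q, mul_ne_zero (inv_ne_zero h0) hq, ?_⟩
    have h1 : (((b + ((-(k : ℤ) : ℤ) : ℚ) : ℚ)) : ℝ) =
        ((b + ((-(k : ℤ) - 1 : ℤ) : ℚ) : ℚ) : ℝ) + 1 := by
      push_cast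
      ring
    have h2 : ((b + ((-(k : ℤ) - 1 : ℤ) : ℚ) : ℚ) : ℝ) ≠ 0 := by exact_mod_cast h0
    rw [h1, Real.Gamma_add_one h2] at h
    rw [Rat.cast_mul, Rat.cast_inv, mul_assoc, ← h, inv_mul_cancel_left₀ h2]

theorem shift : S_SHIFT := by
  intro a ha
  have hb : 0 < a - ⌈a⌉ + 1 := by
    have := Int.ceil_lt_add_one a
    linarith
  have he : a = (a - ⌈a⌉ + 1) + ((⌈a⌉ - 1 : ℤ) : ℚ) := by
    push_cast
    ring
  obtain ⟨q, hq, h⟩ := shift_aux (a - ⌈a⌉ + 1) hb (⌈a⌉ - 1) (fun n hn => ha n (he.trans hn))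
  refine ⟨q, hq, ?_⟩
  rw [← he] at h
  exact h

end Pool.Agent.Q192.IB
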